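import Pool.Agent.AEN.Stmts

/-!
# TRA: translation covariance of the Green vectors
-/

set_option autoImplicit false

open MeasureTheory ProbabilityTheory Function Filter

open scoped ENNReal BigOperators InnerProductSpace Topology

noncomputable section

namespace Pool.Agent.AEN.H80

open Pool.Agent.Anderson Pool.Agent.Loc Pool.Agent.Helper54.Bal Pool.Agent.AEN

variable {d : ℕ}

theorem shift_G {V : Cfg d} {z : ℂ} (hz : z.im ≠ 0) (a x : Site d) :
    shift a (G V z (del (x + a))) = G (tau a V) z (del x) := by
  apply G_unique hz
  intro y
  have h1 := G_eq (V := V) hz (del (x + a)) (y + a)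
  have h2 : lap (shift a (G V z (del (x + a)))) y = lap (G V z (del (x + a))) (y + a) := by
    unfold lap
    apply Finset.sum_congr rfl
    intro i _
    rw [shift_apply, shift_apply]
    have e1 : y + Pi.single i 1 + a = y + a + Pi.single i 1 := by abel
    have e2 : y - Pi.single i 1 + a = y + a - Pi.single i 1 := by abel
    rw [e1, e2]
  rw [h2, shift_apply]
  change lap (G V z (del (x + a))) (y + a) + ((V (y + a) : ℂ) - z) *
    G V z (del (x + a)) (y + a) = _
  rw [h1, del_apply, del_apply]
  simp

theorem tra : TraStmt := by
  intro d V E a x y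
  have h : ∀ n : ℕ, Gn (tau a V) E n x = shift a (Gn V E n (x + a)) := fun n =>
    (shift_G (zn_im_ne E n) a x).symm
  constructor
  · unfold Bd
    simp only [h, LinearIsometry.norm_map]
  · unfold Lm
    simp only [h, shift_apply]

end Pool.Agent.AEN.H80
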